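import Pool.Agent.N202.TB.Stm

/-!
# Logarithms of `ℓ`-adic matrices
-/

set_option linter.unusedSectionVars false

namespace Pool.Agent.N340.TB

open Matrix Filter Topology
open Pool.Agent.N202.TB

section Le

variable {ℓ : ℕ} [Fact ℓ.Prime]

/-- the entries have norm at most `r` -/
def Le {m n : Type} (A : Matrix m n ℚ_[ℓ]) (r : ℝ) : Prop := ∀ i j, ‖A i j‖ ≤ r

variable {m n o : Type} [Fintype m] [DecidableEq m] [Fintype n]

lemma sum_le {ι : Type} (s : Finset ι) (f : ι → ℚ_[ℓ]) {r : ℝ} (hr : 0 ≤ r)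
    (h : ∀ i ∈ s, ‖f i‖ ≤ r) : ‖∑ i ∈ s, f i‖ ≤ r := by
  classical
  induction s using Finset.induction_on with
  | empty => simpa using hr
  | insert a s ha ih =>
    rw [Finset.sum_insert ha]
    refine (Padic.nonarchimedean _ _).trans (max_le (h a (Finset.mem_insert_self _ _)) ?_)
    exact ih fun i hi => h i (Finset.mem_insert_of_mem hi)

lemma Le.mono {A : Matrix m n ℚ_[ℓ]} {r s : ℝ} (h : Le A r) (hrs : r ≤ s) : Le A s :=
  fun i j => (h i j).trans hrs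

lemma Le.nonneg_of {A : Matrix m n ℚ_[ℓ]} {r : ℝ} (h : Le A r) (i : m) (j : n) : 0 ≤ r :=
  (norm_nonneg _).trans (h i j)

lemma Le.add {A B : Matrix m n ℚ_[ℓ]} {r : ℝ} (hA : Le A r) (hB : Le B r) : Le (A + B) r := by
  intro i j
  rw [Matrix.add_apply]
  exact (Padic.nonarchimedean _ _).trans (max_le (hA i j) (hB i j))

lemma Le.neg {A : Matrix m n ℚ_[ℓ]} {r : ℝ} (hA : Le A r) : Le (-A) r := by
  intro i j
  rw [Matrix.neg_apply, norm_neg]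
  exact hA i j

lemma Le.sub {A B : Matrix m n ℚ_[ℓ]} {r : ℝ} (hA : Le A r) (hB : Le B r) : Le (A - B) r := by
  rw [sub_eq_add_neg]
  exact hA.add hB.neg

lemma Le.sum {ι : Type} (s : Finset ι) (f : ι → Matrix m n ℚ_[ℓ]) {r : ℝ} (hr : 0 ≤ r)
    (h : ∀ i ∈ s, Le (f i) r) : Le (∑ i ∈ s, f i) r := by
  intro i j
  rw [Matrix.sum_apply]
  exact sum_le s _ hr fun k hk => h k hk i j

lemma Le.smul {A : Matrix m n ℚ_[ℓ]} {r : ℝ} (hA : Le A r) (c : ℚ_[ℓ]) : Le (c • A) (‖c‖ * r) := by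
  intro i j
  rw [Matrix.smul_apply, smul_eq_mul, norm_mul]
  exact mul_le_mul_of_nonneg_left (hA i j) (norm_nonneg _)

lemma Le.mul {A : Matrix m n ℚ_[ℓ]} {B : Matrix n o ℚ_[ℓ]} {r s : ℝ} (hr : 0 ≤ r) (hs : 0 ≤ s)
    (hA : Le A r) (hB : Le B s) : Le (A * B) (r * s) := by
  intro i j
  rw [Matrix.mul_apply]
  refine sum_le _ _ (mul_nonneg hr hs) fun k _ => ?_
  rw [norm_mul]
  exact mul_le_mul (hA i k) (hB k j) (norm_nonneg _) hr

lemma Le.one : Le (1 : Matrix m m ℚ_[ℓ]) 1 := by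
  intro i j
  by_cases h : i = j
  · subst h; simp
  · simp [Matrix.one_apply_ne h]

lemma Le.pow {A : Matrix m m ℚ_[ℓ]} (hA : Le A 1) (k : ℕ) : Le (A ^ k) 1 := by
  induction k with
  | zero => rw [pow_zero]; exact Le.one
  | succ k ih =>
    rw [pow_succ]
    simpa using Le.mul zero_le_one zero_le_one ih hA

lemma vnorm_le {A : Matrix m n ℚ_[ℓ]} {r : ℝ} (hr : 0 ≤ r) (hA : Le A r) (v : n → ℚ_[ℓ]) :
    ‖A *ᵥ v‖ ≤ r * ‖v‖ := by
  rw [pi_norm_le_iff_of_nonneg (mul_nonneg hr (norm_nonneg _))]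
  intro i
  rw [Matrix.mulVec, dotProduct]
  refine sum_le _ _ (mul_nonneg hr (norm_nonneg _)) fun k _ => ?_
  rw [norm_mul]
  exact mul_le_mul (hA i k) (norm_le_pi_norm v k) (norm_nonneg _) hr

end Le

section Basic

variable {ℓ : ℕ} [hℓ : Fact ℓ.Prime] {m : Type} [Fintype m] [DecidableEq m]

lemma ell_pos : (0 : ℝ) < ℓ := by exact_mod_cast hℓ.out.pos

lemma two_le_ell : (2 : ℝ) ≤ ℓ := by exact_mod_cast hℓ.out.two_le

lemma ell_inv_lt : ((ℓ : ℝ))⁻¹ < 1 := by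
  apply inv_lt_one_of_one_lt₀
  linarith [two_le_ell (ℓ := ℓ)]

lemma inv_pow_nonneg (k : ℕ) : (0 : ℝ) ≤ ((ℓ : ℝ) ^ k)⁻¹ := by positivity

lemma inv_pow_le_one (k : ℕ) : ((ℓ : ℝ) ^ k)⁻¹ ≤ 1 := by
  apply inv_le_one_of_one_le₀
  apply one_le_pow₀
  linarith [two_le_ell (ℓ := ℓ)]

/-- if `h` is near `1`, so are its powers -/
lemma pow_sub_one_le {h : Matrix m m ℚ_[ℓ]} {r : ℝ} (hr : 0 ≤ r) (hr1 : r ≤ 1) (hh : Le (h - 1) r)
    (i : ℕ) : Le (h ^ i - 1) r := by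
  have h1 : Le h 1 := by
    have : h = (h - 1) + 1 := by abel
    rw [this]
    exact (hh.mono hr1).add Le.one
  induction i with
  | zero => rw [pow_zero, sub_self]; intro i j; simpa using hr
  | succ i ih =>
    have : h ^ (i + 1) - 1 = (h ^ i - 1) * h + (h - 1) := by
      rw [sub_mul, one_mul, ← pow_succ]; abel
    rw [this]
    refine Le.add ?_ hh
    simpa using Le.mul hr zero_le_one ih h1

lemma norm_nat_pow (k : ℕ) : ‖((ℓ : ℚ_[ℓ]) ^ k)‖ = ((ℓ : ℝ) ^ k)⁻¹ := by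
  rw [norm_pow, Padic.norm_p, inv_pow]

lemma norm_nat_pow_inv (k : ℕ) : ‖((ℓ : ℚ_[ℓ]) ^ k)⁻¹‖ = (ℓ : ℝ) ^ k := by
  rw [norm_inv, norm_nat_pow, inv_inv]

lemma nat_pow_ne (k : ℕ) : ((ℓ : ℚ_[ℓ]) ^ k) ≠ 0 :=
  pow_ne_zero _ (by exact_mod_cast hℓ.out.ne_zero)

/-- the sum `Σ_{i<s} (h^i - 1)` -/
lemma geom_le {h : Matrix m m ℚ_[ℓ]} {r : ℝ} (hr : 0 ≤ r) (hr1 : r ≤ 1) (hh : Le (h - 1) r)
    (s : ℕ) : Le (∑ i ∈ Finset.range s, (h ^ i - 1)) r :=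
  Le.sum _ _ hr fun i _ => pow_sub_one_le hr hr1 hh i

lemma geom_eq (h : Matrix m m ℚ_[ℓ]) (s : ℕ) :
    h ^ s - 1 = (((s : ℕ) : ℚ_[ℓ]) • (1 : Matrix m m ℚ_[ℓ]) +
      ∑ i ∈ Finset.range s, (h ^ i - 1)) * (h - 1) := by
  rw [← geom_sum_mul h s]
  congr 1
  rw [Finset.sum_sub_distrib, Finset.sum_const, Finset.card_range, ← Nat.cast_smul_eq_nsmul ℚ_[ℓ]]
  abel

/-- the approximation of the logarithm -/
noncomputable def Y (g : Matrix m m ℚ_[ℓ]) (k : ℕ) : Matrix m m ℚ_[ℓ] :=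
  ((ℓ : ℚ_[ℓ]) ^ k)⁻¹ • (g ^ (ℓ ^ k) - 1)

lemma near_iff {g : Matrix m m ℚ_[ℓ]} : Near g ↔ Le (g - 1) ((ℓ : ℝ) ^ 2)⁻¹ := Iff.rfl

lemma near_pow {g : Matrix m m ℚ_[ℓ]} (hg : Near g) (k : ℕ) :
    Le (g ^ (ℓ ^ k) - 1) ((ℓ : ℝ) ^ (k + 2))⁻¹ := by
  induction k with
  | zero => simpa using near_iff.1 hg
  | succ k ih =>
    have e : g ^ (ℓ ^ (k + 1)) - 1 = (((ℓ : ℕ) : ℚ_[ℓ]) • (1 : Matrix m m ℚ_[ℓ]) +
      ∑ i ∈ Finset.range ℓ, ((g ^ (ℓ ^ k)) ^ i - 1)) * (g ^ (ℓ ^ k) - 1) := by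
      rw [← geom_eq, ← pow_mul, pow_succ]
    rw [e]
    have h1 : Le (((ℓ : ℕ) : ℚ_[ℓ]) • (1 : Matrix m m ℚ_[ℓ])) ((ℓ : ℝ))⁻¹ := by
      have := Le.smul (Le.one (ℓ := ℓ) (m := m)) (ℓ : ℚ_[ℓ])
      rwa [Padic.norm_p, mul_one] at this
    have h2 : Le (∑ i ∈ Finset.range ℓ, ((g ^ (ℓ ^ k)) ^ i - 1)) ((ℓ : ℝ))⁻¹ := by
      refine (geom_le (inv_pow_nonneg _) (inv_pow_le_one _) ih ℓ).mono ?_
      apply inv_anti₀ ell_pos
      exact le_self_pow₀ (by linarith [two_le_ell (ℓ := ℓ)]) (by omega)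
    have := Le.mul (inv_nonneg.2 ell_pos.le) (inv_pow_nonneg _) (h1.add h2) ih
    refine this.mono (le_of_eq ?_)
    rw [← mul_inv, ← pow_succ']

/-- the error term -/
noncomputable def E (g : Matrix m m ℚ_[ℓ]) (k : ℕ) : Matrix m m ℚ_[ℓ] :=
  ((ℓ : ℚ_[ℓ]))⁻¹ • ∑ i ∈ Finset.range ℓ, ((g ^ (ℓ ^ k)) ^ i - 1)

lemma E_le {g : Matrix m m ℚ_[ℓ]} (hg : Near g) (k : ℕ) : Le (E g k) ((ℓ : ℝ) ^ (k + 1))⁻¹ := by
  have := (geom_le (inv_pow_nonneg _) (inv_pow_le_one _) (near_pow hg k) ℓ).smul ((ℓ : ℚ_[ℓ]))⁻¹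
  refine this.mono (le_of_eq ?_)
  rw [norm_inv, Padic.norm_p, inv_inv]
  have := (ell_pos (ℓ := ℓ)).ne'
  field_simp
  ring

lemma Y_succ (g : Matrix m m ℚ_[ℓ]) (k : ℕ) : Y g (k + 1) = (1 + E g k) * Y g k := by
  have h0 : ((ℓ : ℚ_[ℓ])) ≠ 0 := by exact_mod_cast hℓ.out.ne_zero
  have e : g ^ (ℓ ^ (k + 1)) - 1 = (((ℓ : ℕ) : ℚ_[ℓ]) • (1 : Matrix m m ℚ_[ℓ]) +
      ∑ i ∈ Finset.range ℓ, ((g ^ (ℓ ^ k)) ^ i - 1)) * (g ^ (ℓ ^ k) - 1) := by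
      rw [← geom_eq, ← pow_mul, pow_succ]
  have e2 : (1 + E g k) = (ℓ : ℚ_[ℓ])⁻¹ • (((ℓ : ℕ) : ℚ_[ℓ]) • (1 : Matrix m m ℚ_[ℓ]) +
      ∑ i ∈ Finset.range ℓ, ((g ^ (ℓ ^ k)) ^ i - 1)) := by
    rw [smul_add, smul_smul, inv_mul_cancel₀ h0, one_smul, E]
  rw [Y, e, e2, Y, Matrix.smul_mul, Matrix.mul_smul, smul_smul, pow_succ, mul_inv]
  congr 1
  ring

lemma Y_le {g : Matrix m m ℚ_[ℓ]} (hg : Near g) (k : ℕ) : Le (Y g k) ((ℓ : ℝ) ^ 2)⁻¹ := by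
  have := (near_pow hg k).smul ((ℓ : ℚ_[ℓ]) ^ k)⁻¹
  refine this.mono (le_of_eq ?_)
  rw [norm_nat_pow_inv]
  have := (ell_pos (ℓ := ℓ)).ne'
  field_simp
  ring

lemma Y_apply (g : Matrix m m ℚ_[ℓ]) (k : ℕ) (i j : m) : Y g k i j = ((ℓ : ℚ_[ℓ]) ^ k)⁻¹ *
    ((g ^ (ℓ ^ k)) i j - (1 : Matrix m m ℚ_[ℓ]) i j) := by
  rw [Y, Matrix.smul_apply, Matrix.sub_apply, smul_eq_mul]

lemma isLog_iff {g y : Matrix m m ℚ_[ℓ]} : IsLog g y ↔ Tendsto (Y g) atTop (𝓝 y) := by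
  have e : Tendsto (Y g) atTop (𝓝 y) ↔ ∀ i j, Tendsto (fun k => Y g k i j) atTop (𝓝 (y i j)) := by
    constructor
    · intro h i j
      exact (tendsto_pi_nhds.1 (tendsto_pi_nhds.1 h i) j)
    · intro h
      refine tendsto_pi_nhds.2 fun i => tendsto_pi_nhds.2 fun j => h i j
  rw [e]
  simp only [IsLog, Y_apply]

theorem log_ : S_LOG := by
  intro ℓ _ m _ _ g hg
  have hex : ∀ i j, ∃ a, Tendsto (fun k : ℕ => Y g k i j) atTop (𝓝 a) := by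
    intro i j
    apply cauchySeq_tendsto_of_complete
    refine cauchySeq_of_le_geometric ((ℓ : ℝ)⁻¹) 1 ell_inv_lt fun k => ?_
    rw [dist_comm, dist_eq_norm]
    have e : Y g (k + 1) i j - Y g k i j = (E g k * Y g k) i j := by
      rw [Y_succ, add_mul, one_mul, Matrix.add_apply]; ring
    rw [e]
    have := Le.mul (inv_pow_nonneg _) (inv_pow_nonneg _) (E_le hg k) (Y_le hg k) i j
    refine this.trans ?_
    calc ((ℓ : ℝ) ^ (k + 1))⁻¹ * ((ℓ : ℝ) ^ 2)⁻¹ ≤ ((ℓ : ℝ) ^ (k + 1))⁻¹ * 1 :=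
          mul_le_mul_of_nonneg_left (inv_pow_le_one _) (inv_pow_nonneg _)
      _ ≤ 1 * (ℓ : ℝ)⁻¹ ^ k := by
          rw [mul_one, one_mul, inv_pow]
          apply inv_anti₀ (pow_pos ell_pos _)
          exact pow_le_pow_right₀ (by linarith [two_le_ell (ℓ := ℓ)]) (by omega)
  choose a ha using hex
  refine ⟨Matrix.of a, fun i j => ?_⟩
  have := ha i j
  simp only [Y_apply] at this
  exact this

theorem logs_ : S_LOGS := by
  intro ℓ _ c hc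
  have hn : Near (ℓ := ℓ) (m := Unit) (Matrix.of fun _ _ => c) := by
    intro i j
    simpa using hc
  obtain ⟨y, hy⟩ := log_ ℓ Unit _ hn
  refine ⟨y () (), ?_⟩
  have := hy () ()
  have e : ∀ k : ℕ, ((Matrix.of fun _ _ => c : Matrix Unit Unit ℚ_[ℓ]) ^ k) () () = c ^ k := by
    intro k
    induction k with
    | zero => simp
    | succ k ih => rw [pow_succ, Matrix.mul_apply]; simp [ih, pow_succ]
  simp only [e, Matrix.one_apply_eq] at this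
  exact this

theorem ker_ : S_KER := by
  intro ℓ _ m _ _ g y v hg hy hv
  rw [isLog_iff] at hy
  have hlim : Tendsto (fun k => ‖Y g k *ᵥ v‖) atTop (𝓝 0) := by
    have : Tendsto (fun k => Y g k *ᵥ v) atTop (𝓝 (y *ᵥ v)) := by
      have hc : Continuous fun A : Matrix m m ℚ_[ℓ] => A *ᵥ v :=
        continuous_id.matrix_mulVec continuous_const
      exact (hc.tendsto y).comp hy
    rw [hv] at this
    simpa using this.norm
  have hstep : ∀ k, ‖Y g k *ᵥ v‖ ≤ ‖Y g (k + 1) *ᵥ v‖ := by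
    intro k
    set w := Y g k *ᵥ v with hw
    have e : Y g (k + 1) *ᵥ v = w + E g k *ᵥ w := by
      rw [Y_succ, add_mul, one_mul, Matrix.add_mulVec, ← Matrix.mulVec_mulVec]
    by_contra hcon
    push Not at hcon
    have h1 : ‖E g k *ᵥ w‖ ≤ (ℓ : ℝ)⁻¹ * ‖w‖ := by
      refine (vnorm_le (inv_pow_nonneg _) (E_le hg k) w).trans ?_
      refine mul_le_mul_of_nonneg_right ?_ (norm_nonneg _)
      apply inv_anti₀ ell_pos
      exact le_self_pow₀ (by linarith [two_le_ell (ℓ := ℓ)]) (by omega)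
    have hwpos : 0 < ‖w‖ := (norm_nonneg _).trans_lt hcon
    have h2 : ‖E g k *ᵥ w‖ < ‖w‖ := by
      refine h1.trans_lt ?_
      have := mul_lt_mul_of_pos_right (ell_inv_lt (ℓ := ℓ)) hwpos
      linarith
    -- entrywise
    have h3 : ‖w‖ ≤ max ‖Y g (k + 1) *ᵥ v‖ ‖E g k *ᵥ w‖ := by
      rw [pi_norm_le_iff_of_nonneg (le_max_of_le_left (norm_nonneg _))]
      intro i
      have e2 : w i = (Y g (k + 1) *ᵥ v) i + -((E g k *ᵥ w) i) := by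
        rw [e, Pi.add_apply]; ring
      rw [e2]
      refine (Padic.nonarchimedean _ _).trans ?_
      rw [norm_neg]
      exact max_le_max (norm_le_pi_norm _ i) (norm_le_pi_norm _ i)
    rcases le_max_iff.1 h3 with h | h
    · exact absurd h (not_le.2 hcon)
    · exact absurd h (not_le.2 h2)
  have hmono : Monotone (fun k => ‖Y g k *ᵥ v‖) := monotone_nat_of_le_succ hstep
  have h0 : ‖Y g 0 *ᵥ v‖ ≤ 0 := hmono.ge_of_tendsto hlim 0
  have h1 : Y g 0 *ᵥ v = 0 := norm_le_zero_iff.1 h0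
  have e : Y g 0 = g - 1 := by simp [Y]
  rw [e, Matrix.sub_mulVec, Matrix.one_mulVec, sub_eq_zero] at h1
  exact h1

lemma tendsto_pow_one {g : Matrix m m ℚ_[ℓ]} (hg : Near g) (i : ℕ) :
    Tendsto (fun k => (g ^ (ℓ ^ k)) ^ i) atTop (𝓝 1) := by
  refine tendsto_pi_nhds.2 fun a => tendsto_pi_nhds.2 fun b => ?_
  rw [tendsto_iff_norm_sub_tendsto_zero]
  refine squeeze_zero (g := fun k => ((ℓ : ℝ)⁻¹) ^ (k + 2)) (fun _ => norm_nonneg _) (fun k => ?_) ?_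
  · have := pow_sub_one_le (inv_pow_nonneg _) (inv_pow_le_one _) (near_pow hg k) i a b
    rw [inv_pow]
    exact this
  · exact (tendsto_pow_atTop_nhds_zero_of_lt_one (inv_nonneg.2 ell_pos.le) ell_inv_lt).comp
      (tendsto_add_atTop_nat 2)

lemma tendsto_mv1 {A : ℕ → Matrix m m ℚ_[ℓ]} {a : Matrix m m ℚ_[ℓ]} {w : ℕ → m → ℚ_[ℓ]}
    {b : m → ℚ_[ℓ]} (hA : Tendsto A atTop (𝓝 a)) (hw : Tendsto w atTop (𝓝 b)) :
    Tendsto (fun k => A k *ᵥ w k) atTop (𝓝 (a *ᵥ b)) := by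
  refine tendsto_pi_nhds.2 fun i => ?_
  simp only [Matrix.mulVec, dotProduct]
  refine tendsto_finsetSum _ fun j _ => ?_
  exact (tendsto_pi_nhds.1 (tendsto_pi_nhds.1 hA i) j).mul (tendsto_pi_nhds.1 hw j)

lemma tendsto_mv {A B : ℕ → Matrix m m ℚ_[ℓ]} {a b : Matrix m m ℚ_[ℓ]}
    (hA : Tendsto A atTop (𝓝 a)) (hB : Tendsto B atTop (𝓝 b)) (v : m → ℚ_[ℓ]) :
    Tendsto (fun k => A k *ᵥ (B k *ᵥ v)) atTop (𝓝 (a *ᵥ (b *ᵥ v))) :=
  tendsto_mv1 hA (tendsto_mv1 hB tendsto_const_nhds)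

theorem fix_ : S_FIX := by
  intro ℓ _ m _ _ g y v s hs hg hy hv
  rw [isLog_iff] at hy
  have hz : ∀ k, (∑ i ∈ Finset.range s, (g ^ (ℓ ^ k)) ^ i) *ᵥ (Y g k *ᵥ v) = 0 := by
    intro k
    have h1 : (g ^ (ℓ ^ k)) ^ s *ᵥ v = v := by
      rw [← pow_mul, mul_comm, pow_mul]
      generalize ℓ ^ k = N
      induction N with
      | zero => rw [pow_zero, Matrix.one_mulVec]
      | succ N ih => rw [pow_succ, ← Matrix.mulVec_mulVec, hv, ih]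
    have h2 := geom_sum_mul (g ^ (ℓ ^ k)) s
    rw [Matrix.mulVec_mulVec, Y, Matrix.mul_smul, h2, Matrix.smul_mulVec, Matrix.sub_mulVec, h1,
      Matrix.one_mulVec, sub_self, smul_zero]
  have h1 : Tendsto (fun k => ∑ i ∈ Finset.range s, (g ^ (ℓ ^ k)) ^ i) atTop
      (𝓝 (∑ i ∈ Finset.range s, (1 : Matrix m m ℚ_[ℓ]))) :=
    tendsto_finsetSum _ fun i _ => tendsto_pow_one hg i
  have hl := tendsto_mv h1 hy v
  simp only [hz] at hl
  have h0 := tendsto_nhds_unique hl tendsto_const_nhds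
  rw [Finset.sum_const, Finset.card_range, ← Nat.cast_smul_eq_nsmul ℚ_[ℓ], Matrix.smul_mulVec,
    Matrix.one_mulVec] at h0
  rcases smul_eq_zero.1 h0 with h | h
  · exfalso
    have : s = 0 := by exact_mod_cast h
    omega
  · exact h

theorem ad_ : S_AD := by
  intro ℓ _ m _ _ g g' y S hg hg' hy hgg hS x hx
  rw [isLog_iff] at hy
  have hgg' : g' * g = 1 := mul_eq_one_comm.1 hgg
  have hS' : ∀ N : ℕ, g ^ N * x * g' ^ N ∈ S := by
    intro N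
    induction N with
    | zero => simpa using hx
    | succ N ih =>
      have : g ^ (N + 1) * x * g' ^ (N + 1) = g * (g ^ N * x * g' ^ N) * g' := by
        rw [pow_succ' g, pow_succ g']; simp only [Matrix.mul_assoc]
      rw [this]
      exact hS _ ih
  have hcomm : Commute g g' := by rw [commute_iff_eq, hgg, hgg']
  have hpow : ∀ N : ℕ, g ^ N * g' ^ N = 1 := by
    intro N
    rw [← hcomm.mul_pow, hgg, one_pow]
  have hmem : ∀ k, (Y g k * x - x * Y g k) * g' ^ (ℓ ^ k) ∈ S := by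
    intro k
    have : (Y g k * x - x * Y g k) * g' ^ (ℓ ^ k) =
        ((ℓ : ℚ_[ℓ]) ^ k)⁻¹ • (g ^ (ℓ ^ k) * x * g' ^ (ℓ ^ k) - x) := by
      rw [Y, Matrix.smul_mul, Matrix.mul_smul, ← smul_sub, Matrix.smul_mul]
      congr 1
      have : (g ^ (ℓ ^ k) - 1) * x - x * (g ^ (ℓ ^ k) - 1) = g ^ (ℓ ^ k) * x - x * g ^ (ℓ ^ k) := by
        rw [sub_mul, mul_sub, one_mul, mul_one]; abel
      rw [this, sub_mul, Matrix.mul_assoc x, hpow, mul_one]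
    rw [this]
    exact S.smul_mem _ (S.sub_mem (hS' _) hx)
  have hlim : Tendsto (fun k => (Y g k * x - x * Y g k) * g' ^ (ℓ ^ k)) atTop
      (𝓝 ((y * x - x * y) * 1)) := by
    have h1 : Tendsto (fun k => g' ^ (ℓ ^ k)) atTop (𝓝 1) := by
      simpa using tendsto_pow_one hg' 1
    exact ((hy.mul_const x).sub (hy.const_mul x)).mul h1
  have hcl : IsClosed (S : Set (Matrix m m ℚ_[ℓ])) := Submodule.closed_of_finiteDimensional S
  rw [mul_one] at hlim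
  exact hcl.mem_of_tendsto hlim (Filter.Eventually.of_forall hmem)

end Basic

end Pool.Agent.N340.TB
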